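import Pool.Agent.P.MP_cfb0df_co.GMain

open Pool.Agent.P.MP_cfb0df_co.Th

/-- For even `g ≥ 2` and odd `l`, the 3-expansion of the theta graph with paths of lengths
`g, g, l` is Sidorenko if and only if `l ≥ g + 3`. -/
theorem Pool.Agent.Results.MP_cfb0df_co.ThetaThreshold.result (g l : ℕ) (hg0 : 0 < g)
    (hg : Even g) (hl : Odd l) :
    Sidorenko 3 (expand (theta ![g, g, l])) ↔ g + 3 ≤ l :=
  main g l hg0 hg hl
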